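import Pool.Agent.H61.CMC.TargetsE1

/-!
# Row E1_GMU of `cm4_modules`: the Gamma factors on vertical lines, uniform in `m`
-/

set_option autoImplicit false

open MeasureTheory Set Filter NumberField NumberField.InfinitePlace NumberField.Units
  NumberField.Units.dirichletUnitTheorem Pool.Agent.H65.CM4 Pool.Agent.H65.CMC
  Pool.Agent.H25.HK Pool.Agent.H61.CM4 Pool.Agent.H61.CMC
open scoped Real

namespace Pool.Agent.H90.CMC1

theorem cast_abs_int (a : ℤ) : ((|a| : ℤ) : ℂ) = ((a.natAbs : ℕ) : ℂ) := by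
  rw [← Int.natCast_natAbs, Int.cast_natCast]

/-- one place -/
theorem gg_bound (hGQU : T_GQU) (R C₀ : ℝ) (N : ℕ) (hC₀ : 0 < C₀)
    (hX : ∀ (M : ℕ) (c τ : ℝ), 1 / 4 ≤ c → c ≤ R →
      ‖Complex.Gamma (c + M + τ * Complex.I)‖ ≤
        C₀ * (1 + M + |τ|) ^ N * ‖Complex.Gamma (1 / 2 + M + τ * Complex.I)‖)
    (a : ℤ) (c t τ Y : ℝ) (hc : 1 / 4 ≤ c) (hcR : c ≤ R)
    (hY : 1 + (a.natAbs : ℝ) + |τ| ≤ Y) :
    ‖gg a (c + τ * Complex.I)‖ ≤ (R + 1) ^ 2 * C₀ * Y ^ (N + 2) * Real.exp (π * |τ - t| / 2) *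
      ‖Complex.Gamma (1 / 2 + ((|a| : ℤ) : ℂ) + t * Complex.I)‖ := by
  have hR0 : 0 < R := by linarith
  have hM0 : (0 : ℝ) ≤ (a.natAbs : ℝ) := Nat.cast_nonneg _
  have hτ0 := abs_nonneg τ
  rw [cast_abs_int]
  have hgg : gg a (c + τ * Complex.I) = (c + τ * Complex.I) * (c + τ * Complex.I - 1) *
      Complex.Gamma (c + (a.natAbs : ℕ) + τ * Complex.I) *
        (2 * (π : ℂ)) ^ (-((c : ℂ) + τ * Complex.I)) := by
    unfold gg
    rw [cast_abs_int]
    have e : (c : ℂ) + τ * Complex.I + ((a.natAbs : ℕ) : ℂ) =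
        c + (a.natAbs : ℕ) + τ * Complex.I := by ring
    rw [e]
  rw [hgg, norm_mul, norm_mul, norm_mul]
  have hn1 : ‖(c : ℂ) + τ * Complex.I‖ ≤ (R + 1) * (1 + |τ|) := by
    have h1 : ‖(c : ℂ) + τ * Complex.I‖ ≤ ‖(c : ℂ)‖ + ‖(τ : ℂ) * Complex.I‖ := norm_add_le _ _
    rw [norm_mul, Complex.norm_I, mul_one, Complex.norm_real, Complex.norm_real,
      Real.norm_of_nonneg (by linarith), Real.norm_eq_abs] at h1
    have h2 : (R + 1) * (1 + |τ|) = R + 1 + |τ| + R * |τ| := by ring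
    have h3 : 0 ≤ R * |τ| := by positivity
    linarith
  have hn2 : ‖(c : ℂ) + τ * Complex.I - 1‖ ≤ (R + 1) * (1 + |τ|) := by
    have e : (c : ℂ) + τ * Complex.I - 1 = ((c - 1 : ℝ) : ℂ) + τ * Complex.I := by
      push_cast; ring
    have h1 : ‖((c - 1 : ℝ) : ℂ) + τ * Complex.I‖ ≤ ‖((c - 1 : ℝ) : ℂ)‖ + ‖(τ : ℂ) * Complex.I‖ :=
      norm_add_le _ _
    rw [norm_mul, Complex.norm_I, mul_one, Complex.norm_real, Complex.norm_real,
      Real.norm_eq_abs, Real.norm_eq_abs] at h1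
    rw [e]
    have h4 : |c - 1| ≤ R + 1 := by
      rw [abs_le]
      constructor <;> linarith
    have h2 : (R + 1) * (1 + |τ|) = R + 1 + |τ| + R * |τ| := by ring
    have h3 : 0 ≤ R * |τ| := by positivity
    linarith
  have hn3 : ‖(2 * (π : ℂ)) ^ (-((c : ℂ) + τ * Complex.I))‖ ≤ 1 := by
    have e : (2 * (π : ℂ)) = ((2 * π : ℝ) : ℂ) := by push_cast; rfl
    rw [e, Complex.norm_cpow_eq_rpow_re_of_pos (by positivity)]
    have h1 : (-((c : ℂ) + τ * Complex.I)).re = -c := by simp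
    rw [h1]
    refine Real.rpow_le_one_of_one_le_of_nonpos ?_ (by linarith)
    have := Real.pi_gt_three
    linarith
  have hY1 : 1 + |τ| ≤ Y := by linarith
  have hY0 : 0 ≤ Y := by linarith
  have hG := hX a.natAbs c τ hc hcR
  have hQ := hGQU a.natAbs t τ
  have hGam : ‖Complex.Gamma (c + (a.natAbs : ℕ) + τ * Complex.I)‖ ≤
      C₀ * Y ^ N * (Real.exp (π * |τ - t| / 2) *
        ‖Complex.Gamma (1 / 2 + (a.natAbs : ℕ) + t * Complex.I)‖) := by
    refine hG.trans ?_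
    refine mul_le_mul ?_ hQ (norm_nonneg _) (by positivity)
    exact mul_le_mul_of_nonneg_left (pow_le_pow_left₀ (by positivity) hY N) hC₀.le
  have hsq : ‖(c : ℂ) + τ * Complex.I‖ * ‖(c : ℂ) + τ * Complex.I - 1‖ ≤ (R + 1) ^ 2 * Y ^ 2 := by
    calc ‖(c : ℂ) + τ * Complex.I‖ * ‖(c : ℂ) + τ * Complex.I - 1‖
        ≤ ((R + 1) * (1 + |τ|)) * ((R + 1) * (1 + |τ|)) :=
          mul_le_mul hn1 hn2 (norm_nonneg _) (by positivity)
      _ ≤ ((R + 1) * Y) * ((R + 1) * Y) := by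
          have h5 : (R + 1) * (1 + |τ|) ≤ (R + 1) * Y :=
            mul_le_mul_of_nonneg_left hY1 (by linarith)
          exact mul_le_mul h5 h5 (by positivity) (by positivity)
      _ = (R + 1) ^ 2 * Y ^ 2 := by ring
  calc ‖(c : ℂ) + τ * Complex.I‖ * ‖(c : ℂ) + τ * Complex.I - 1‖ *
        ‖Complex.Gamma (c + (a.natAbs : ℕ) + τ * Complex.I)‖ *
        ‖(2 * (π : ℂ)) ^ (-((c : ℂ) + τ * Complex.I))‖
      ≤ ((R + 1) ^ 2 * Y ^ 2) * (C₀ * Y ^ N * (Real.exp (π * |τ - t| / 2) *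
        ‖Complex.Gamma (1 / 2 + (a.natAbs : ℕ) + t * Complex.I)‖)) * 1 := by
        refine mul_le_mul ?_ hn3 (norm_nonneg _) (by positivity)
        exact mul_le_mul hsq hGam (norm_nonneg _) (by positivity)
    _ = (R + 1) ^ 2 * C₀ * Y ^ (N + 2) * Real.exp (π * |τ - t| / 2) *
        ‖Complex.Gamma (1 / 2 + (a.natAbs : ℕ) + t * Complex.I)‖ := by ring

/-- Row E1_GMU. -/
theorem pf_GMU (hGQU : T_GQU) (hGXX : T_GXX) : T_GMU := by
  intro k _ _ R
  obtain ⟨C₀, N, hC₀, hX⟩ := hGXX R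
  refine ⟨(((R + 1) ^ 2 + 1) * C₀) ^ Fintype.card (Pl k), (N + 2) * Fintype.card (Pl k),
    by positivity, ?_⟩
  intro m c t τ hc hcR
  have hR0 : 0 < R := by linarith
  have hms : ∀ v : Pl k, ((m v).natAbs : ℝ) ≤ ms m := by
    intro v
    unfold ms
    have h1 : ((m v).natAbs : ℝ) = |(m v : ℝ)| := by
      rw [Nat.cast_natAbs, Int.cast_abs]
    rw [h1]
    exact Finset.single_le_sum (f := fun v : Pl k => |(m v : ℝ)|) (fun i _ => abs_nonneg _)
      (Finset.mem_univ v)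
  have hms0 : 0 ≤ ms m := Finset.sum_nonneg fun v _ => abs_nonneg _
  obtain ⟨Y, hYdef⟩ : ∃ Y : ℝ, Y = (1 + |t| + ms m) * (1 + |τ - t|) := ⟨_, rfl⟩
  have hY : ∀ v : Pl k, 1 + ((m v).natAbs : ℝ) + |τ| ≤ Y := by
    intro v
    have h1 := hms v
    have h2 : |τ| ≤ |t| + |τ - t| := by
      have := abs_add_le t (τ - t)
      rwa [add_sub_cancel] at this
    have h3 : 0 ≤ (|t| + ms m) * |τ - t| := by positivity
    rw [hYdef]
    have e : (1 + |t| + ms m) * (1 + |τ - t|) =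
        1 + |t| + ms m + |τ - t| + (|t| + ms m) * |τ - t| := by ring
    rw [e]
    linarith
  have hY0 : 0 ≤ Y := by rw [hYdef]; positivity
  have hpl : ∀ v : Pl k, ‖gg (m v) (c + τ * Complex.I)‖ ≤
      (((R + 1) ^ 2 + 1) * C₀ * Y ^ (N + 2) * Real.exp (π * |τ - t| / 2)) *
        ‖Complex.Gamma (1 / 2 + ((|m v| : ℤ) : ℂ) + t * Complex.I)‖ := by
    intro v
    refine (gg_bound hGQU R C₀ N hC₀ (fun M c τ h1 h2 => (hX M c τ h1 h2).1) (m v) c t τ Y hc hcR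
      (hY v)).trans ?_
    refine mul_le_mul_of_nonneg_right ?_ (norm_nonneg _)
    refine mul_le_mul_of_nonneg_right ?_ (Real.exp_pos _).le
    refine mul_le_mul_of_nonneg_right ?_ (by positivity)
    exact mul_le_mul_of_nonneg_right (by linarith) hC₀.le
  unfold GM
  rw [norm_prod]
  refine (Finset.prod_le_prod (fun v _ => norm_nonneg _) fun v _ => hpl v).trans ?_
  rw [Finset.prod_mul_distrib, Finset.prod_const, Finset.card_univ]
  refine le_of_eq ?_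
  have e1 : Real.exp (π * |τ - t| / 2) ^ Fintype.card (Pl k) =
      Real.exp (π * Fintype.card (Pl k) * |τ - t| / 2) := by
    rw [← Real.exp_nat_mul]
    congr 1
    ring
  have e2 : (Y ^ (N + 2)) ^ Fintype.card (Pl k) = (1 + |t| + ms m) ^ ((N + 2) *
      Fintype.card (Pl k)) * (1 + |τ - t|) ^ ((N + 2) * Fintype.card (Pl k)) := by
    rw [← pow_mul, hYdef, mul_pow]
  unfold cG
  rw [mul_pow, mul_pow, e1, e2]
  ring

end Pool.Agent.H90.CMC1
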